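import Pool.Agent.W606.PS.Stm

/-!
# Folding the integers: `S_FOLD`
-/

set_option autoImplicit false

namespace Pool.Agent.W101.PS

open Pool.Agent.W606.PS Set

/-- The triangular wave. -/
def wave (M a : ℤ) : ℤ := |(a + M) % (2 * M) - M|

theorem wave_even {M a s : ℤ} (hM : 1 ≤ M) (h1 : 2 * s * M ≤ a) (h2 : a < (2 * s + 1) * M) :
    wave M a = a - 2 * s * M := by
  unfold wave
  have h : (a + M) % (2 * M) = a + M - 2 * s * M := by
    rw [← Int.emod_eq_of_lt (a := a + M - 2 * s * M) (b := 2 * M) (by linarith) (by nlinarith)]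
    have : a + M - 2 * s * M = a + M + 2 * M * (-s) := by ring
    rw [this, Int.add_mul_emod_self_left]
  rw [h, abs_of_nonneg (by linarith)]
  ring

theorem wave_odd {M a s : ℤ} (hM : 1 ≤ M) (h1 : (2 * s + 1) * M ≤ a) (h2 : a < (2 * s + 2) * M) :
    wave M a = (2 * s + 2) * M - a := by
  unfold wave
  have h : (a + M) % (2 * M) = a + M - (2 * s + 2) * M := by
    rw [← Int.emod_eq_of_lt (a := a + M - (2 * s + 2) * M) (b := 2 * M) (by nlinarith)
      (by nlinarith)]
    have : a + M - (2 * s + 2) * M = a + M + 2 * M * (-(s + 1)) := by ring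
    rw [this, Int.add_mul_emod_self_left]
  rw [h, abs_of_nonpos (by nlinarith)]
  ring

theorem wave_step (M a : ℤ) (hM : 1 ≤ M) : |wave M (a + 1) - wave M a| ≤ 1 := by
  have h0 := Int.emod_nonneg (a + M) (show 2 * M ≠ 0 by omega)
  have h1 := Int.emod_lt_of_pos (a + M) (show 0 < 2 * M by omega)
  have hd := Int.mul_ediv_add_emod (a + M) (2 * M)
  by_cases h : (a + M) % (2 * M) + 1 < 2 * M
  · have e : (a + 1 + M) % (2 * M) = (a + M) % (2 * M) + 1 := by
      have : a + 1 + M = ((a + M) % (2 * M) + 1) + 2 * M * ((a + M) / (2 * M)) := by linarith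
      rw [this, Int.add_mul_emod_self_left]
      exact Int.emod_eq_of_lt (by linarith) h
    unfold wave
    rw [e]
    have := abs_abs_sub_abs_le ((a + M) % (2 * M) + 1 - M) ((a + M) % (2 * M) - M)
    refine this.trans ?_
    rw [show (a + M) % (2 * M) + 1 - M - ((a + M) % (2 * M) - M) = 1 by ring]
    simp
  · have e0 : (a + M) % (2 * M) = 2 * M - 1 := by omega
    have e : (a + 1 + M) % (2 * M) = 0 := by
      have : a + 1 + M = 0 + 2 * M * ((a + M) / (2 * M) + 1) := by linarith
      rw [this, Int.add_mul_emod_self_left]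
      simp
    unfold wave
    rw [e, e0, abs_of_nonpos (show 0 - M ≤ 0 by linarith),
      abs_of_nonneg (show 0 ≤ 2 * M - 1 - M by linarith)]
    rw [show -(0 - M) - (2 * M - 1 - M) = 1 by ring]
    simp

theorem main : S_FOLD := by
  intro M hM
  have hM' : (1 : ℤ) ≤ M := by exact_mod_cast hM
  refine ⟨wave M, ?_, ?_, ?_, ?_⟩
  · intro a
    have h0 := Int.emod_nonneg (a + M) (show 2 * (M : ℤ) ≠ 0 by omega)
    have h1 := Int.emod_lt_of_pos (a + M) (show 0 < 2 * (M : ℤ) by omega)
    refine ⟨abs_nonneg _, ?_⟩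
    unfold wave
    rw [abs_le]
    constructor <;> linarith
  · intro a b hab
    rw [abs_le] at hab
    have : a = b ∨ a = b + 1 ∨ b = a + 1 := by omega
    rcases this with rfl | rfl | rfl
    · simp
    · exact wave_step M b hM'
    · rw [abs_sub_comm]; exact wave_step M a hM'
  · intro a h0 h1
    rcases h1.lt_or_eq with h1 | h1
    · have := wave_even (M := M) (a := a) (s := 0) hM' (by linarith) (by linarith)
      rw [this]; ring
    · have := wave_odd (M := M) (a := a) (s := 0) hM' (by linarith) (by linarith)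
      rw [this, h1]; ring
  · intro j
    have hinj : Set.InjOn (fun a : ℤ => a / M) {a : ℤ | 0 ≤ a ∧ a < 6 * M ∧ wave M a = j} := by
      intro a ha b hb hab
      have hab' : a / (M : ℤ) = b / M := hab
      have ha3 := ha.2.2
      have hb3 := hb.2.2
      have a1 : a / M * M ≤ a := Int.ediv_mul_le a (by omega)
      have a2 : a < (a / M + 1) * M := by
        have := Int.lt_ediv_add_one_mul_self a (show 0 < (M : ℤ) by omega)
        exact this
      have b1 : b / M * M ≤ b := Int.ediv_mul_le b (by omega)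
      have b2 : b < (b / M + 1) * M := by
        have := Int.lt_ediv_add_one_mul_self b (show 0 < (M : ℤ) by omega)
        exact this
      rw [← hab'] at b1 b2
      generalize a / (M : ℤ) = q at a1 a2 b1 b2
      rcases Int.even_or_odd' q with ⟨s, rfl | rfl⟩
      · rw [wave_even hM' a1 a2] at ha3
        rw [wave_even hM' b1 b2] at hb3
        linarith
      · have e : (2 * s + 1 + 1 : ℤ) = 2 * s + 2 := by ring
        rw [e] at a2 b2
        rw [wave_odd hM' a1 a2] at ha3
        rw [wave_odd hM' b1 b2] at hb3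
        linarith
    have hmap : ∀ a ∈ {a : ℤ | 0 ≤ a ∧ a < 6 * M ∧ wave M a = j},
        (fun a : ℤ => a / M) a ∈ (Set.Ico (0 : ℤ) 6) := by
      intro a ha
      refine ⟨Int.ediv_nonneg ha.1 (by omega), ?_⟩
      exact Int.ediv_lt_of_lt_mul (by omega) ha.2.1
    have := Set.ncard_le_ncard_of_injOn _ hmap hinj (Set.finite_Ico 0 6)
    refine this.trans ?_
    have : (Set.Ico (0 : ℤ) 6) = ((Finset.Ico (0 : ℤ) 6 : Finset ℤ) : Set ℤ) := by simp
    rw [this, Set.ncard_coe_finset]
    simp

end Pool.Agent.W101.PS
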